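import Pool.Agent.LE.StmtsC
import Pool.Agent.Helper28_LE.GevA

/-!
# UPM: the mean of `D(0, m ℓ y)`
-/

set_option autoImplicit false

open MeasureTheory ProbabilityTheory Function Filter

open scoped ENNReal BigOperators Topology

noncomputable section

namespace Pool.Agent.LE.H28C

open Pool.Agent.Anderson Pool.Agent.Loc Pool.Agent.Mob Pool.Agent.Helper54.Bal
  Pool.Agent.Mob.H75 Pool.Agent.LE.H28A

/-- The event that an entry from the boundary of a cube is large, uniformly in the parameters. -/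
theorem up_u (d : ℕ) (B η p : ℝ) (hη : 0 < η) (hp : 0 < p) :
    ∃ L₀ : ℕ, 1 ≤ L₀ ∧ ∀ n : ℕ, L₀ ≤ n → ∀ (σ E : ℝ), BddDens (gl σ) B → ∀ (N : ℕ)
      (b x : Site d),
      PP d (gl σ) {V | ¬ ∀ z, sd b z = n + 1 → |gr V (box 0 N) E z x| ≤ Real.exp (η * n)} ≤
        ENNReal.ofReal p := by
  classical
  obtain ⟨L₀, h1, hL₀⟩ := poly_exp (6 * B) η p d hη hp
  refine ⟨L₀, h1, fun n hn0 σ E hν N b x => ?_⟩
  have hn : 1 ≤ n := h1.trans hn0
  set t : ℝ := η * n with ht
  have hsub : {V | ¬ ∀ z, sd b z = n + 1 → |gr V (box 0 N) E z x| ≤ Real.exp t} ⊆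
      ⋃ z ∈ box b (12 * n), {V | Real.exp t < |gr V (box 0 N) E z x|} := by
    intro V hV
    simp only [Set.mem_ofPred_eq, not_forall, not_le] at hV
    obtain ⟨z, hz, h⟩ := hV
    simp only [Set.mem_iUnion]
    refine ⟨z, ?_, h⟩
    rw [mem_box]
    omega
  refine (measure_mono hsub).trans ((measure_biUnion_finset_le _ _).trans
    ((Finset.sum_le_sum (g := fun _ => ENNReal.ofReal (|6 * B| * Real.exp (-t)))
      fun z hz => ?_).trans ?_))
  · refine (PP_le_PL (Λ := box 0 N) ?_).trans ((PL_weak hν (box 0 N) E z x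
      (Real.exp_pos t)).trans ?_)
    · intro V V' hV
      simp only [Set.mem_ofPred_eq]
      rw [gr_congr hV]
    · apply ENNReal.ofReal_le_ofReal
      rw [Real.exp_neg, ← div_eq_mul_inv]
      exact div_le_div_of_nonneg_right (le_abs_self _) (Real.exp_pos _).le
  · rw [Finset.sum_const, nsmul_eq_mul, ← ENNReal.ofReal_natCast,
      ← ENNReal.ofReal_mul (by positivity)]
    apply ENNReal.ofReal_le_ofReal
    have hb : (((box b (12 * n)).card : ℕ) : ℝ) ≤ (25 * (n : ℝ)) ^ d := card_box_le b hn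
    have h2 := hL₀ n hn0
    calc (((box b (12 * n)).card : ℕ) : ℝ) * (|6 * B| * Real.exp (-t))
        ≤ (25 * (n : ℝ)) ^ d * (|6 * B| * Real.exp (-t)) := by
          apply mul_le_mul_of_nonneg_right hb (by positivity)
      _ = |6 * B| * (25 * (n : ℝ)) ^ d * Real.exp (-t) := by ring
      _ ≤ p := h2

/-- The mean of a function which is at most `c` outside a small set. -/
theorem mean_le {Ω : Type} [MeasurableSpace Ω] {P : Measure Ω} [IsProbabilityMeasure P]
    {f : Ω → ℝ} (hf : Measurable f) (hi : Integrable (fun ω => f ω ^ 2) P) {c lam q S : ℝ}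
    (hc : 0 ≤ c) (hlam : 0 < lam) (hq : 0 ≤ q) (hS : ∫ ω, f ω ^ 2 ∂P ≤ S)
    (hA : P {ω | c < f ω} ≤ ENNReal.ofReal q) :
    ∫ ω, f ω ∂P ≤ c + lam / 2 * S + q / (2 * lam) := by
  have hmA : MeasurableSet {ω | c < f ω} := measurableSet_lt measurable_const hf
  have hif : Integrable f P := integrable_of_sq hf hi
  have hind : Integrable ({ω | c < f ω}.indicator fun _ => (1 : ℝ) / (2 * lam)) P :=
    (integrable_const _).indicator hmA
  have h1 : ∫ ω, f ω ∂P ≤ ∫ ω, (c + lam / 2 * f ω ^ 2 +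
      {ω | c < f ω}.indicator (fun _ => (1 : ℝ) / (2 * lam)) ω) ∂P := by
    refine integral_mono hif (((integrable_const c).add (hi.const_mul _)).add hind) ?_
    intro ω
    simp only
    by_cases h : c < f ω
    · rw [Set.indicator_of_mem (show ω ∈ {ω | c < f ω} from h)]
      have h2 : 0 ≤ lam / 2 * (f ω - 1 / lam) ^ 2 := by positivity
      have h3 : lam / 2 * (f ω - 1 / lam) ^ 2 = lam / 2 * f ω ^ 2 - f ω + 1 / (2 * lam) := by
        field_simp
        ring
      linarith
    · rw [Set.indicator_of_notMem (show ω ∉ {ω | c < f ω} from h)]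
      have h2 : 0 ≤ lam / 2 * f ω ^ 2 := by positivity
      have h3 := not_lt.1 h
      linarith
  have h2 : ∫ ω, (c + lam / 2 * f ω ^ 2 +
      {ω | c < f ω}.indicator (fun _ => (1 : ℝ) / (2 * lam)) ω) ∂P =
      c + lam / 2 * ∫ ω, f ω ^ 2 ∂P + P.real {ω | c < f ω} * (1 / (2 * lam)) := by
    have i1 : Integrable (fun ω => c + lam / 2 * f ω ^ 2) P :=
      (integrable_const c).add (hi.const_mul _)
    have i2 : Integrable (fun ω => lam / 2 * f ω ^ 2) P := hi.const_mul _
    rw [integral_add i1 hind, integral_add (integrable_const c) i2, integral_const,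
      integral_const_mul, integral_indicator_const _ hmA]
    simp
  have h3 : P.real {ω | c < f ω} ≤ q := by
    rw [measureReal_def]
    exact ENNReal.toReal_le_of_le_ofReal hq hA
  have h4 : P.real {ω | c < f ω} * (1 / (2 * lam)) ≤ q / (2 * lam) := by
    rw [mul_one_div]
    exact div_le_div_of_nonneg_right h3 (by positivity)
  have h5 : lam / 2 * ∫ ω, f ω ^ 2 ∂P ≤ lam / 2 * S :=
    mul_le_mul_of_nonneg_left hS (by positivity)
  linarith

/-- The mean of the positive part from the second moment. -/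
theorem mean_pos {Ω : Type} [MeasurableSpace Ω] {P : Measure Ω} [IsProbabilityMeasure P]
    {f g h : Ω → ℝ} (hf : Integrable f P) (hg : Integrable g P) (hh : Integrable h P)
    (hm : Integrable (fun ω => (max 0 (f ω - g ω - h ω)) ^ 2) P) {C : ℝ}
    (hC : ∫ ω, (max 0 (f ω - g ω - h ω)) ^ 2 ∂P ≤ C) :
    ∫ ω, f ω ∂P ≤ ∫ ω, g ω ∂P + ∫ ω, h ω ∂P + (1 + C) / 2 := by
  have h1 : ∫ ω, f ω ∂P ≤ ∫ ω, (g ω + h ω + (1 / 2 + 1 / 2 * (max 0 (f ω - g ω - h ω)) ^ 2)) ∂P := by
    refine integral_mono hf ((hg.add hh).add ((integrable_const _).add (hm.const_mul _))) ?_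
    intro ω
    simp only
    have h2 := le_max_right 0 (f ω - g ω - h ω)
    nlinarith [sq_nonneg (max 0 (f ω - g ω - h ω) - 1)]
  have h2 : ∫ ω, (g ω + h ω + (1 / 2 + 1 / 2 * (max 0 (f ω - g ω - h ω)) ^ 2)) ∂P =
      ∫ ω, g ω ∂P + ∫ ω, h ω ∂P + (1 / 2 + 1 / 2 * ∫ ω, (max 0 (f ω - g ω - h ω)) ^ 2 ∂P) := by
    have i1 : Integrable (fun ω => g ω + h ω) P := hg.add hh
    have i2 : Integrable (fun ω => 1 / 2 * (max 0 (f ω - g ω - h ω)) ^ 2) P := hm.const_mul _
    have i3 : Integrable (fun ω => 1 / 2 + 1 / 2 * (max 0 (f ω - g ω - h ω)) ^ 2) P :=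
      (integrable_const _).add i2
    rw [integral_add i1 i3, integral_add hg hh, integral_add (integrable_const _) i2,
      integral_const, integral_const_mul]
    simp
  linarith

theorem box_sub {d : ℕ} (b : Site d) (r N : ℕ) (h : sd 0 b + r ≤ N) : box b r ⊆ box 0 N := by
  intro z hz
  rw [mem_box] at hz ⊢
  have := sd_triangle 0 b z
  omega

theorem int_pos {Ω : Type} [MeasurableSpace Ω] {P : Measure Ω} [IsProbabilityMeasure P]
    {f g h : Ω → ℝ} (mf : Measurable f) (mg : Measurable g) (mh : Measurable h)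
    (hf : Integrable (fun ω => f ω ^ 2) P) (hg : Integrable (fun ω => g ω ^ 2) P)
    (hh : Integrable (fun ω => h ω ^ 2) P) :
    Integrable (fun ω => (max 0 (f ω - g ω - h ω)) ^ 2) P := by
  refine (((hf.add hg).add hh).const_mul 3).mono' ?_ (Eventually.of_forall fun ω => ?_)
  · exact (((measurable_const.max ((mf.sub mg).sub mh))).pow_const 2).aestronglyMeasurable
  · simp only [Pi.add_apply, Real.norm_eq_abs]
    rw [abs_of_nonneg (sq_nonneg _)]
    have h1 : (max 0 (f ω - g ω - h ω)) ^ 2 ≤ (f ω - g ω - h ω) ^ 2 := by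
      rcases le_total 0 (f ω - g ω - h ω) with h2 | h2
      · rw [max_eq_right h2]
      · rw [max_eq_left h2]
        nlinarith [sq_nonneg (f ω - g ω - h ω)]
    nlinarith [sq_nonneg (f ω + g ω), sq_nonneg (f ω + h ω), sq_nonneg (g ω - h ω)]

/-- The lower bound for the entry outside the bad events. -/
theorem entry_le {a b L s κ : ℝ} (h1 : |a - b| ≤ Real.exp (-(κ + 1) * L) / 2)
    (h2 : Real.exp (-(κ + s) * L) ≤ |b|) (hs : s ≤ 1) (hL : 0 ≤ L) :
    -Real.log |a| ≤ (κ + s) * L + 1 := by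
  have h3 : Real.exp (-(κ + 1) * L) ≤ Real.exp (-(κ + s) * L) := by
    apply Real.exp_le_exp.2
    nlinarith
  have h4 : |b| ≤ |a| + |a - b| := by
    have := abs_sub_abs_le_abs_sub b a
    rw [abs_sub_comm b a] at this
    linarith
  have h5 : Real.exp (-(κ + s) * L) / 2 ≤ |a| := by linarith
  have h6 : Real.exp (-((κ + s) * L + 1)) ≤ |a| := by
    refine le_trans ?_ h5
    have e : Real.exp (-((κ + s) * L + 1)) = Real.exp (-(κ + s) * L) * Real.exp (-1) := by
      rw [← Real.exp_add]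
      congr 1
      ring
    rw [e, div_eq_mul_one_div]
    apply mul_le_mul_of_nonneg_left _ (Real.exp_pos _).le
    have h7 := Real.add_one_le_exp (1 : ℝ)
    rw [Real.exp_neg, ← one_div]
    exact one_div_le_one_div_of_le (by norm_num) (by linarith)
  have h8 : -((κ + s) * L + 1) ≤ Real.log |a| := by
    rw [← Real.log_exp (-((κ + s) * L + 1))]
    exact Real.log_le_log (Real.exp_pos _) h6
  linarith

theorem bdd_mono {ν : Measure ℝ} {ρ B : ℝ} (h : BddDens ν ρ) (hρ : ρ ≤ B) : BddDens ν B := by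
  refine ⟨h.1.trans_le hρ, fun a b => ?_⟩
  rcases le_total a b with hab | hab
  · exact (h.2 a b).trans (ENNReal.ofReal_le_ofReal
      (mul_le_mul_of_nonneg_right hρ (by linarith)))
  · rcases eq_or_lt_of_le hab with h1 | h1
    · subst h1
      refine (h.2 b b).trans (ENNReal.ofReal_le_ofReal ?_)
      rw [sub_self, mul_zero, mul_zero]
    · rw [Set.Icc_eq_empty (not_le.2 h1), measure_empty]
      exact bot_le

/-- **UPM** -/
theorem upm (ufm : UfmStmt) (lox : LoxStmt) : UpmStmt := by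
  intro d B κ' κ₀ ε K hd hB hκ' hκ₀ hε hK hKκ
  obtain ⟨C, hC, hfam⟩ := ufm d B hd hB
  have hK8 : (8 : ℝ) ≤ K := by exact_mod_cast hK
  have hK0 : (0 : ℝ) < K := by linarith
  obtain ⟨s, hs⟩ : ∃ s : ℝ, s = ε / (16 * C) := ⟨_, rfl⟩
  have hs0 : 0 < s := by rw [hs]; positivity
  have hsC : s * C = ε / 16 := by rw [hs]; field_simp
  refine ⟨min (κ' / (24 * K)) (min (1 / (8 * K)) (ε / (32 * K))), ε * s / 12, by positivity,
    by positivity, ?_⟩
  intro η hη hη0
  have e1 : 24 * η * K ≤ κ' := by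
    have h := hη0.trans (min_le_left _ _)
    rw [le_div_iff₀ (by positivity)] at h
    linarith
  have e2 : 8 * η * K ≤ 1 := by
    have h := hη0.trans ((min_le_right _ _).trans (min_le_left _ _))
    rw [le_div_iff₀ (by positivity)] at h
    linarith
  have e3 : 32 * η * K ≤ ε := by
    have h := hη0.trans ((min_le_right _ _).trans (min_le_right _ _))
    rw [le_div_iff₀ (by positivity)] at h
    linarith
  have hηK : 0 < η * K := by positivity
  obtain ⟨L1, hL1⟩ := lox d η κ' κ₀ K hd hη hκ' hκ₀ hK e1 hKκ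
  obtain ⟨L2, -, hL2⟩ := up_u d B η (ε * s / 12) hη (by positivity)
  obtain ⟨L3, hL3⟩ := exists_nat_ge (1 / (η * K))
  obtain ⟨L4, hL4⟩ := exists_nat_ge (2 * (1 + C) / ε)
  refine ⟨max (max L1 L2) (max (max L3 L4) 1), ?_⟩
  intro σ E Q₁ ℓ y hpar hQ hℓ hL hy hSG hGR
  obtain ⟨L, hLdef⟩ : ∃ L : ℕ, L = Q₁ * ℓ := ⟨_, rfl⟩
  have hLR : ((Q₁ : ℝ) * (ℓ : ℝ)) = (L : ℝ) := by rw [hLdef]; push_cast; ring
  have hKL : K * Q₁ * ℓ = K * L := by rw [hLdef, mul_assoc]
  rw [← hLdef] at hL
  rw [hKL, hLR] at hGR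
  rw [hKL] at hSG
  rw [← hLdef, hLR]
  have g1 : L1 ≤ L := ((le_max_left _ _).trans (le_max_left _ _)).trans hL
  have g2 : L2 ≤ L := ((le_max_right _ _).trans (le_max_left _ _)).trans hL
  have g3 : L3 ≤ L := (((le_max_left _ _).trans (le_max_left _ _)).trans (le_max_right _ _)).trans hL
  have g4 : L4 ≤ L := (((le_max_right _ _).trans (le_max_left _ _)).trans (le_max_right _ _)).trans hL
  have g5 : 1 ≤ L := ((le_max_right _ _).trans (le_max_right _ _)).trans hL
  have r1 : (1 : ℝ) ≤ L := by exact_mod_cast g5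
  have r0 : (0 : ℝ) < L := by linarith
  have r3 : 1 ≤ η * K * L := by
    have h : 1 / (η * K) ≤ L := hL3.trans (by exact_mod_cast g3)
    rw [div_le_iff₀ hηK] at h
    linarith
  have r4 : (1 + C) / 2 ≤ ε / 4 * L := by
    have h : 2 * (1 + C) / ε ≤ L := hL4.trans (by exact_mod_cast g4)
    rw [div_le_iff₀ hε] at h
    linarith
  have hσ : σ ≠ 0 := by
    rintro rfl
    have := hpar.2.2
    rw [abs_zero, mul_zero] at this
    linarith
  have hdens : BddDens (gl σ) B := by
    refine bdd_mono (bddDens_gl hσ) ?_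
    rw [div_le_iff₀ (abs_pos.2 hσ)]
    exact hpar.2.2
  have hyQ : y ∈ box (0 : Site d) Q₁ := by rw [mem_box, hy]
  -- one step
  have step : ∀ (N : ℕ) (b : Site d), sd 0 b + (K * L + 1) ≤ N →
      ∫ V, DL (box 0 N) E V b (b + sm ℓ y) ∂(PP d (gl σ)) ≤ (κ₀ + ε / 2) * L := by
    intro N b hbN
    obtain ⟨hF, -⟩ := hfam σ E hpar N
    have hx : sd b (b + sm ℓ y) ≤ L := by
      have := sd_sm b ℓ Q₁ hyQ
      rw [mul_comm, ← hLdef] at this
      exact this
    have hLK : L ≤ K * L := Nat.le_mul_of_pos_left L (by omega)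
    have hbox : box b (K * L + 1) ⊆ box 0 N := box_sub b _ N hbN
    have hb0 : b ∈ box 0 N := by
      rw [mem_box]
      omega
    have hx0 : b + sm ℓ y ∈ box 0 N := by
      rw [mem_box]
      have := sd_triangle 0 b (b + sm ℓ y)
      omega
    have hsq : ∫ V, DL (box 0 N) E V b (b + sm ℓ y) ^ 2 ∂(PP d (gl σ)) ≤ 4 * C * (L : ℝ) ^ 2 := by
      refine (hF.sq b hb0 _ hx0).trans ?_
      have h1 : (sd b (b + sm ℓ y) : ℝ) ≤ L := by exact_mod_cast hx
      have h2 : ((sd b (b + sm ℓ y) : ℝ) + 1) ^ 2 ≤ (2 * L) ^ 2 :=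
        pow_le_pow_left₀ (by positivity) (by linarith) 2
      calc C * ((sd b (b + sm ℓ y) : ℝ) + 1) ^ 2 ≤ C * (2 * L) ^ 2 :=
            mul_le_mul_of_nonneg_left h2 hC.le
        _ = 4 * C * (L : ℝ) ^ 2 := by ring
    have hA : (PP d (gl σ)) {V | (κ₀ + 7 * η * K) * L + 1 < DL (box 0 N) E V b (b + sm ℓ y)} ≤
        ENNReal.ofReal (3 * (ε * s / 12)) := by
      have hsub : {V | (κ₀ + 7 * η * K) * L + 1 < DL (box 0 N) E V b (b + sm ℓ y)} ⊆
          ({V | ¬ (RM V (box 0 N) E).det ≠ 0} ∪ {V | ¬ SG V (K * L) (κ' / 4) E b}) ∪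
          ({V | |gr V (box b (K * L)) E b (b + sm ℓ y)| <
            Real.exp (-(κ₀ + 7 * η * K) * L)} ∪
          {V | ¬ ∀ z, sd b z = K * L + 1 →
            |gr V (box 0 N) E z (b + sm ℓ y)| ≤ Real.exp (η * ((K * L : ℕ) : ℝ))}) := by
        intro V hV
        by_contra hcon
        simp only [Set.mem_union, Set.mem_ofPred_eq, not_or, not_not, not_lt] at hcon hV
        obtain ⟨⟨c1, c2⟩, c3, c4⟩ := hcon
        have h1 := hL1 V N L b (b + sm ℓ y) E g1 hbox c1 c2 (by rw [mem_box]; exact hx)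
          (fun z hz => by
            have := c4 z hz
            push_cast at this
            exact this)
        have h2 := entry_le (s := 7 * η * K) h1 c3 (by linarith) r0.le
        unfold DL at hV
        linarith
      refine (measure_mono hsub).trans ((measure_union_le _ _).trans ?_)
      have u1 : (PP d (gl σ)) ({V | ¬ (RM V (box 0 N) E).det ≠ 0} ∪
          {V | ¬ SG V (K * L) (κ' / 4) E b}) ≤ ENNReal.ofReal (ε * s / 12) := by
        refine (measure_union_le _ _).trans ?_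
        rw [gev_det d σ E B hdens (box 0 N), zero_add]
        exact hSG b
      have u2 : (PP d (gl σ)) ({V | |gr V (box b (K * L)) E b (b + sm ℓ y)| <
            Real.exp (-(κ₀ + 7 * η * K) * L)} ∪
          {V | ¬ ∀ z, sd b z = K * L + 1 →
            |gr V (box 0 N) E z (b + sm ℓ y)| ≤ Real.exp (η * ((K * L : ℕ) : ℝ))}) ≤
          ENNReal.ofReal (ε * s / 12) + ENNReal.ofReal (ε * s / 12) := by
        refine (measure_union_le _ _).trans (add_le_add (hGR b) ?_)
        exact hL2 (K * L) (g2.trans hLK) σ E hdens N b (b + sm ℓ y)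
      refine (add_le_add u1 u2).trans (le_of_eq ?_)
      rw [← ENNReal.ofReal_add (by positivity) (by positivity),
        ← ENNReal.ofReal_add (by positivity) (by positivity)]
      congr 1
      ring
    have h := mean_le (hF.meas b (b + sm ℓ y)) (hF.int b hb0 _ hx0)
      (c := (κ₀ + 7 * η * K) * L + 1) (lam := s / L) (q := 3 * (ε * s / 12)) (by positivity)
      (by positivity) (by positivity) hsq hA
    have h3 : s / L / 2 * (4 * C * (L : ℝ) ^ 2) = ε / 8 * L := by
      have : s / L / 2 * (4 * C * (L : ℝ) ^ 2) = 2 * (s * C) * L := by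
        field_simp
        ring
      rw [this, hsC]
      ring
    have h4 : 3 * (ε * s / 12) / (2 * (s / L)) = ε / 8 * L := by
      field_simp
      ring
    rw [h3, h4] at h
    nlinarith
  -- induction
  have main : ∀ m N : ℕ, (m + 1 + K + 2) * L ≤ N →
      ∫ V, DL (box 0 N) E V 0 (sm ((m + 1) * ℓ) y) ∂(PP d (gl σ)) ≤
        ((m : ℝ) + 1) * ((κ₀ + ε) * L) := by
    intro m
    induction m with
    | zero =>
      intro N hN
      have h := step N 0 (by
        rw [sd_self]
        nlinarith)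
      have e : (0 : Site d) + sm ℓ y = sm ((0 + 1) * ℓ) y := by
        rw [zero_add, zero_add, one_mul]
      rw [e] at h
      refine h.trans ?_
      push_cast
      nlinarith
    | succ m ih =>
      intro N hN
      obtain ⟨hF, -⟩ := hfam σ E hpar N
      have hN' : (m + 1 + K + 2) * L ≤ N := le_trans (Nat.mul_le_mul_right L (by omega)) hN
      have hb : sd (0 : Site d) (sm ((m + 1) * ℓ) y) ≤ (m + 1) * L := by
        have := sd_sm (0 : Site d) ((m + 1) * ℓ) Q₁ hyQ
        rw [zero_add, mul_assoc, mul_comm ℓ Q₁, ← hLdef] at this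
        exact this
      have hx : sd (0 : Site d) (sm ((m + 1 + 1) * ℓ) y) ≤ (m + 1 + 1) * L := by
        have := sd_sm (0 : Site d) ((m + 1 + 1) * ℓ) Q₁ hyQ
        rw [zero_add, mul_assoc, mul_comm ℓ Q₁, ← hLdef] at this
        exact this
      have hNN : (m + 1) * L + (K * L + 1) ≤ N := by nlinarith
      have h := step N (sm ((m + 1) * ℓ) y) (by omega)
      have e : sm ((m + 1) * ℓ) y + sm ℓ y = sm ((m + 1 + 1) * ℓ) y := by
        funext j
        simp only [Pi.add_apply, sm]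
        push_cast
        ring
      rw [e] at h
      have m0 : (0 : Site d) ∈ box 0 N := by
        rw [mem_box, sd_self]
        omega
      have m1 : sm ((m + 1) * ℓ) y ∈ box 0 N := by
        rw [mem_box]
        omega
      have m2 : sm ((m + 1 + 1) * ℓ) y ∈ box 0 N := by
        rw [mem_box]
        nlinarith
      have h2 := mean_pos (P := PP d (gl σ))
        (integrable_of_sq (hF.meas 0 (sm ((m + 1 + 1) * ℓ) y)) (hF.int 0 m0 _ m2))
        (integrable_of_sq (hF.meas 0 (sm ((m + 1) * ℓ) y)) (hF.int 0 m0 _ m1))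
        (integrable_of_sq (hF.meas (sm ((m + 1) * ℓ) y) (sm ((m + 1 + 1) * ℓ) y))
          (hF.int _ m1 _ m2))
        (int_pos (hF.meas _ _) (hF.meas _ _) (hF.meas _ _) (hF.int 0 m0 _ m2)
          (hF.int 0 m0 _ m1) (hF.int _ m1 _ m2))
        (hF.tri 0 m0 _ m1 _ m2)
      have h3 := ih N hN'
      have h5 : (κ₀ + ε / 2) * L + ε / 4 * L ≤ (κ₀ + ε) * L := by
        have := mul_pos hε r0
        linarith
      have h6 : (((m + 1 : ℕ) : ℝ) + 1) * ((κ₀ + ε) * L) =
          ((m : ℝ) + 1) * ((κ₀ + ε) * L) + (κ₀ + ε) * L := by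
        push_cast
        ring
      rw [h6]
      linarith
  intro m N hm hN
  obtain ⟨m', rfl⟩ : ∃ m', m = m' + 1 := ⟨m - 1, by omega⟩
  have h := main m' N hN
  push_cast
  exact h

end Pool.Agent.LE.H28C
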